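import Pool.Agent.MP_d9472f_gt.Mg.Q2_Main

namespace Pool.Agent.Results.MP_d9472f_gt.NoUniversalRationalCurve

open Pool.Agent.MP_d9472f_gt

/-- For every rational curve `X` there is a weakly chainable real curve `Y` that is not a
continuous image of `X`. -/
theorem result :
    ∀ (X : Type) [MetricSpace X], IsRationalCurve X →
      ∃ (Y : Type) (_ : MetricSpace Y), IsRealCurve Y ∧ IsWeaklyChainable Y ∧ ¬ MapsOnto X Y :=
  fun X _ hX => Q2.main X hX

end Pool.Agent.Results.MP_d9472f_gt.NoUniversalRationalCurve
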