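import Pool.Agent.MP_d9472f_gt.Mg.Curves

namespace Pool.Agent.Results.MP_d9472f_gt.NoUniversalRealCurve

open Pool.Agent.MP_d9472f_gt

/-- For every real curve `X` there is a weakly chainable real curve `Y` that is not a
continuous image of `X`. -/
theorem result :
    ∀ (X : Type) [MetricSpace X], IsRealCurve X →
      ∃ (Y : Type) (_ : MetricSpace Y), IsRealCurve Y ∧ IsWeaklyChainable Y ∧ ¬ MapsOnto X Y := by
  intro X _ hX
  obtain ⟨Y₁, i₁, Y₂, i₂, r₁, w₁, r₂, w₂, h⟩ := exists_two_curves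
  by_cases h₁ : MapsOnto X Y₁
  · exact ⟨Y₂, i₂, r₂, w₂, fun h₂ => h X hX ⟨h₁, h₂⟩⟩
  · exact ⟨Y₁, i₁, r₁, w₁, h₁⟩

end Pool.Agent.Results.MP_d9472f_gt.NoUniversalRealCurve
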